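import Mathlib

/-!
# MP_dc5ea1_nt: sums of three generalized heptagonal numbers

`307` is not a sum of three generalized heptagonal numbers.
-/

set_option autoImplicit false

namespace Pool.Agent.Results.MP_dc5ea1_nt.ThreeHundredSeven

/-- The nonnegative integer `n` is a sum of three generalized heptagonal numbers
`r (5 r - 3) / 2`, `r ∈ ℤ` (the division is exact). -/
def IsSumOfThree (n : ℕ) : Prop :=
  ∃ a b c : ℤ, (n : ℤ) = a * (5 * a - 3) / 2 + b * (5 * b - 3) / 2 + c * (5 * c - 3) / 2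

theorem even (r : ℤ) : 2 * (r * (5 * r - 3) / 2) = r * (5 * r - 3) := by
  have h : (2 : ℤ) ∣ r * (5 * r - 3) := by
    rcases Int.even_or_odd r with ⟨k, hk⟩ | ⟨k, hk⟩
    · exact ⟨k * (5 * r - 3), by rw [hk]; ring⟩
    · exact ⟨r * (5 * k + 1), by rw [hk]; ring⟩
  exact Int.mul_ediv_cancel' h

theorem bound (r : ℤ) (h : r * (5 * r - 3) ≤ 614) : -11 ≤ r ∧ r ≤ 11 := by
  constructor <;> nlinarith [sq_nonneg (r + 11), sq_nonneg (r - 11), sq_nonneg (r - 12),
    sq_nonneg (r + 12)]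

theorem nonneg (r : ℤ) : 0 ≤ r * (5 * r - 3) := by
  rcases le_or_gt r 0 with h | h
  · nlinarith
  · nlinarith

/-- **Q1, answered affirmatively**: besides `10`, `16` and `76`, also `307` is not a sum of three
generalized heptagonal numbers. -/
theorem result : ∃ n : ℕ, n ≠ 10 ∧ n ≠ 16 ∧ n ≠ 76 ∧ n = 307 ∧ ¬ IsSumOfThree n := by
  refine ⟨307, by norm_num, by norm_num, by norm_num, rfl, ?_⟩
  rintro ⟨a, b, c, h⟩
  have ha := even a
  have hb := even b
  have hc := even c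
  have h2 : a * (5 * a - 3) + b * (5 * b - 3) + c * (5 * c - 3) = 614 := by
    push_cast at h
    omega
  have na := nonneg a
  have nb := nonneg b
  have nc := nonneg c
  obtain ⟨a1, a2⟩ := bound a (by linarith)
  obtain ⟨b1, b2⟩ := bound b (by linarith)
  obtain ⟨c1, c2⟩ := bound c (by linarith)
  have key : ∀ x ∈ Finset.Icc (-11 : ℤ) 11, ∀ y ∈ Finset.Icc (-11 : ℤ) 11,
      ∀ z ∈ Finset.Icc (-11 : ℤ) 11,
      x * (5 * x - 3) + y * (5 * y - 3) + z * (5 * z - 3) ≠ 614 := by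
    decide +kernel
  exact key a (Finset.mem_Icc.2 ⟨a1, a2⟩) b (Finset.mem_Icc.2 ⟨b1, b2⟩) c
    (Finset.mem_Icc.2 ⟨c1, c2⟩) h2

end Pool.Agent.Results.MP_dc5ea1_nt.ThreeHundredSeven
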